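import Pool.Agent.D0H75.CM.Cons2

/-!
# Abelianness of the category of Chow motives over a finite field: conservativity and nilpotence
-/

set_option autoImplicit false

open CategoryTheory AlgebraicGeometry

universe u v w

namespace Pool.Agent.Results.MP_6c4da4_ag.Conservative

open Pool.Agent.H914 Pool.Agent.W492.BB Pool.Agent.TH133 Pool.Agent.D0H75.CM

/-- Let `k` be a finite field, `C` the theory of Chow groups with rational coefficients of the
varieties over `k` of a class `𝒱` containing the point, and `H` a Weil cohomology theory (with its
Frobenius endomorphisms, which are pure). If the category of Chow motives is abelian, then every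
morphism of Chow motives which induces an isomorphism on the cohomology is an isomorphism, and
every numerically trivial endomorphism of a Chow motive is nilpotent. -/
theorem result {k : Type u} [Field k] [Finite k] {𝒱 : VarClass k} [HasPoint 𝒱]
    (C : TheoryData.{u, v, 0} 𝒱 ℚ) [IsChowProj C] {K : Type w} [Field K]
    (H : WeilTheoryData.{u, v, w} C K) [IsWeilFin H] (Fr : ∀ X : 𝒱.Obj, X ⟶ X)
    (hFr : IsFrobFamily H Fr) (hab : IsAbelianCat (CHMot C)) :
    (∀ (M N : CHMot C) (f : M ⟶ N), IsCohIso H f → IsIso f) ∧
      ∀ (M : CHMot C) (f : End M), NumTrivEnd (M := M) f → IsNilpotent f :=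
  ⟨fun _ _ f hf => isIso_of_cohIso H hFr hab f hf, fun _ f hf => nil_end H hFr hab f hf⟩

end Pool.Agent.Results.MP_6c4da4_ag.Conservative
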