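import Pool.Agent.D0H75.CM.Fin

/-!
# Abelianness of the category of Chow motives over a finite field and the ranks of Chow groups
-/

set_option autoImplicit false

open CategoryTheory AlgebraicGeometry

universe u v w

namespace Pool.Agent.Results.MP_6c4da4_ag.FiniteChow

open Pool.Agent.H914 Pool.Agent.W492.BB Pool.Agent.TH133 Pool.Agent.D0H75.CM

/-- Let `k` be a finite field, `C` the theory of Chow groups with rational coefficients of the
varieties over `k` of a class `𝒱` containing the point, and `H` a Weil cohomology theory (with its
Frobenius endomorphisms, which are pure). If the category of Chow motives is abelian, then for all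
`X` and `i` the vector space `CH^i(X)_ℚ` is finite-dimensional, its dimension is at most the order
of the pole of the zeta function of `X` at `s = i`, and if the strong form of the Tate conjecture
holds for cycles of codimension `i` on `X` (the rank of the group of these cycles modulo numerical
equivalence is at least the order of the pole), then rational and numerical equivalence agree on
`CH^i(X)_ℚ`. -/
theorem result {k : Type u} [Field k] [Finite k] {𝒱 : VarClass k} [HasPoint 𝒱]
    (C : TheoryData.{u, v, 0} 𝒱 ℚ) [IsChowProj C] {K : Type w} [Field K]
    (H : WeilTheoryData.{u, v, w} C K) [IsWeilFin H] (Fr : ∀ X : 𝒱.Obj, X ⟶ X)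
    (hFr : IsFrobFamily H Fr) (hab : IsAbelianCat (CHMot C)) (X : 𝒱.Obj) (i : ℤ) :
    DimLE C X i (poleOrder H Fr X i) ∧
      (NumRankGE C X i (poleOrder H Fr X i) → ∀ a, NumTriv C X i a → a = 0) :=
  ⟨dimLE hFr hab X i, num_eq hFr hab X i⟩

end Pool.Agent.Results.MP_6c4da4_ag.FiniteChow
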