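import Pool.Agent.D0H75.CM.Lef3

/-!
# Abelianness of the category of Chow motives over a finite field: hard Lefschetz
-/

set_option autoImplicit false

open CategoryTheory AlgebraicGeometry

universe u v w

namespace Pool.Agent.Results.MP_6c4da4_ag.HardLefschetz

open Pool.Agent.H914 Pool.Agent.W492.BB Pool.Agent.TH133 Pool.Agent.D0H75.CM

/-- Let `k` be a finite field, `C` the theory of Chow groups with rational coefficients of the
varieties over `k` of a class `𝒱` containing the point, and `H` a Weil cohomology theory (with its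
Frobenius endomorphisms, which are pure). Suppose that the category of Chow motives is abelian.
Let `X` be a variety of dimension `d` and `l` in `CH^1(X)_ℚ` a class satisfying the hard Lefschetz
theorem on the cohomology. Then `X` has a Chow-Kunneth decomposition `π`; for `i ≤ d` the
`(d - i)`-th power of `l` induces an isomorphism of the Chow motives `(X, π_i, 0)` and
`(X, π_{2d-i}, d - i)`, and the inverse of the Lefschetz isomorphism `H^i(X) → H^(2d-i)(X)` is
algebraic (the Lefschetz standard conjecture); and for `2 i ≤ d` the multiplication by the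
`(d - 2 i)`-th power of `l` is a bijection `CH^i(X)_ℚ → CH^(d-i)(X)_ℚ`. -/
theorem result {k : Type u} [Field k] [Finite k] {𝒱 : VarClass k} [HasPoint 𝒱]
    (C : TheoryData.{u, v, 0} 𝒱 ℚ) [IsChowProj C] {K : Type w} [Field K]
    (H : WeilTheoryData.{u, v, w} C K) [IsWeilFin H] (Fr : ∀ X : 𝒱.Obj, X ⟶ X)
    (hFr : IsFrobFamily H Fr) (hab : IsAbelianCat (CHMot C)) (X : 𝒱.Obj) (l : C.A X)
    (hl : IsLef H X l) :
    ∃ π : ℕ → C.A (X.prod X), IsCK H X π ∧
      (∀ i ≤ X.dim, ∃ Λ : C.A (X.prod X), IsLefInv H l i Λ ∧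
        InvIso C (π i) (π (2 * X.dim - i))
          (C.comp (C.comp (π i) (C.mulCorr (l ^ (X.dim - i)))) (π (2 * X.dim - i))) Λ) ∧
      ∀ i : ℕ, 2 * i ≤ X.dim → ∀ b : C.A X, C.Deg (X.dim - i) b →
        ∃! a : C.A X, C.Deg i a ∧ C.mul (l ^ (X.dim - 2 * i)) a = b :=
  hard_lefschetz hFr hab hl

end Pool.Agent.Results.MP_6c4da4_ag.HardLefschetz
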