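import Pool.Agent.D0H75.CM.Kim4

/-!
# Abelianness of the category of Chow motives over a finite field: Kimura finite-dimensionality
-/

set_option autoImplicit false

open CategoryTheory AlgebraicGeometry

universe u v w

namespace Pool.Agent.Results.MP_6c4da4_ag.KimuraFinite

open Pool.Agent.H914 Pool.Agent.W492.BB Pool.Agent.W550.Corr Pool.Agent.TH133
  Pool.Agent.D0H75.CM

/-- Let `k` be a finite field, `C` the theory of Chow groups with rational coefficients of the
varieties over `k` of a class `𝒱` containing the point, and `H` a Weil cohomology theory (with its
Frobenius endomorphisms, which are pure). Suppose that the category of Chow motives is abelian.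
Then every variety `X` is finite-dimensional in the sense of Kimura, with the dimensions given by
the cohomology: there is an idempotent `p` in `CH^(dim X)(X × X)_ℚ` acting on the cohomology as
the projector to the even part, such that the `n`-th exterior power of the Chow motive `(X, p, 0)`
is zero if the even cohomology of `X` has dimension less than `n`, and the `n`-th symmetric power
of the Chow motive `(X, Δ - p, 0)` is zero if the odd cohomology of `X` has dimension less than
`n`. -/
theorem result {k : Type u} [Field k] [Finite k] {𝒱 : VarClass k} [HasPoint 𝒱]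
    (C : TheoryData.{u, v, 0} 𝒱 ℚ) [IsChowProj C] {K : Type w} [Field K]
    (H : WeilTheoryData.{u, v, w} C K) [IsWeilFin H] (Fr : ∀ X : 𝒱.Obj, X ⟶ X)
    (hFr : IsFrobFamily H Fr) (hab : IsAbelianCat (CHMot C)) (X : 𝒱.Obj) :
    ∃ p : C.A (X.prod X), IsEvenProj H X p ∧ ∀ n : ℕ,
      (ParDimLT H X 0 n → PowZero C p (n := n) Equiv.Perm.sign) ∧
      (ParDimLT H X 1 n → PowZero C (dg C X - p) (n := n) 1) :=
  kimura H hFr hab X

end Pool.Agent.Results.MP_6c4da4_ag.KimuraFinite
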